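import Pool.Agent.Y243.MRank.Main

/-!
# The maximal rank of tensors of all large formats over algebraically closed fields and the reals
-/

set_option autoImplicit false

universe u

namespace Pool.Agent.Results.MP_098a67_ag.OverAllClosedFields

open Pool.Agent.TH140.MR

/-- For `d ≥ 3` factors of dimensions `n i ≥ m ≥ 1` the maximal rank is at least the parameter
count `∏ n i / ∑ n i` over every infinite field, and at most
`(1 + (2 d + 3) 3 ^ (d + 2) / m ^ (1 / 3))` times it over every algebraically closed field of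
characteristic zero and over the real numbers. -/
theorem result (d : ℕ) (hd : 3 ≤ d) (n : Fin d → ℕ) (m : ℕ) (hm : 0 < m) (hn : ∀ i, m ≤ n i) :
    (∀ (K : Type u) [Field K] [Infinite K],
      (∏ i, (n i : ℝ)) / (∑ i, (n i : ℝ)) ≤ (maxRank K n : ℝ)) ∧
    (∀ (K : Type u) [Field K] [IsAlgClosed K] [CharZero K],
      (maxRank K n : ℝ) ≤ (1 + (2 * d + 3) * 3 ^ (d + 2) / (m : ℝ) ^ ((1 : ℝ) / 3)) *
        ((∏ i, (n i : ℝ)) / ∑ i, (n i : ℝ))) ∧
    (maxRank ℝ n : ℝ) ≤ (1 + (2 * d + 3) * 3 ^ (d + 2) / (m : ℝ) ^ ((1 : ℝ) / 3)) *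
      ((∏ i, (n i : ℝ)) / ∑ i, (n i : ℝ)) :=
  ⟨fun K _ _ => Pool.Agent.Y243.MRank.maxRank_lower_infinite (by omega) K n
      fun i => lt_of_lt_of_le hm (hn i),
    fun K _ _ _ => Pool.Agent.Y243.MRank.upper K hd n m hm hn, maxRank_upper ℝ hd n m hm hn⟩

end Pool.Agent.Results.MP_098a67_ag.OverAllClosedFields
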